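import Pool.Agent.H315R2.EB.Stubs

/-!
# An adapted sequence gives a basis (MP_26e62b_al, task ADB)
-/

namespace Pool.Agent.H40R2.EB

open Module
open scoped Pointwise
open Pool.Agent.H315R2.EB

theorem ADB_proof (_hV : St_VAL) (_hH : St_HOM) (_hL : St_LAM) : St_ADB := by
  intro O K V _ _ _ _ _ _ _ _ _ _ _ p hp m hm hdim L e hC hA
  obtain ⟨ϖ, hϖ, hϖp⟩ := hp
  -- powers of `p`
  have hmem : ∀ (n : ℕ) (k : ℤ), L (k + n) ≤ L k := by
    intro n
    induction n with
    | zero => intro k; simp
    | succ n ih =>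
      intro k
      have h1 : L (k + n + 1) ≤ L (k + n) := (hC.cov (k + n)).le
      have h2 : k + ((n + 1 : ℕ) : ℤ) = k + n + 1 := by push_cast; ring
      rw [h2]
      exact h1.trans (ih k)
  have hstep : ∀ k : ℤ, L k = Submodule.span O {e k} ⊔ L (k + 1) := by
    intro k
    have h1 : L (k + 1) ≤ Submodule.span O {e k} ⊔ L (k + 1) := le_sup_right
    have h2 : Submodule.span O {e k} ⊔ L (k + 1) ≤ L k := by
      refine sup_le ?_ (hC.cov k).le
      rw [Submodule.span_le]
      intro x hx
      rw [Set.mem_singleton_iff] at hx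
      rw [hx]
      exact hA.mem k
    rcases (hC.cov k).eq_or_eq h1 h2 with h | h
    · exfalso
      apply hA.not_mem k
      rw [← h]
      exact Submodule.mem_sup_left (Submodule.subset_span rfl)
    · exact h.symm
  have hchain : ∀ (k : ℤ) (n : ℕ),
      L k = Submodule.span O (Set.range fun j : Fin n => e (k + (j : ℕ))) ⊔ L (k + n) := by
    intro k n
    induction n with
    | zero => simp
    | succ n ih =>
      have h2 : k + ((n + 1 : ℕ) : ℤ) = k + n + 1 := by push_cast; ring
      have h3 : (Set.range fun j : Fin (n + 1) => e (k + (j : ℕ)))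
          = (Set.range fun j : Fin n => e (k + (j : ℕ))) ∪ {e (k + n)} := by
        ext x
        simp only [Set.mem_range, Set.mem_union, Set.mem_singleton_iff]
        constructor
        · rintro ⟨j, rfl⟩
          rcases Nat.lt_succ_iff_lt_or_eq.1 j.2 with h | h
          · exact Or.inl ⟨⟨j, h⟩, rfl⟩
          · right
            rw [h]
        · rintro (⟨j, rfl⟩ | rfl)
          · exact ⟨⟨j, Nat.lt_succ_of_lt j.2⟩, rfl⟩
          · exact ⟨⟨n, Nat.lt_succ_self n⟩, rfl⟩
      rw [h2, h3, Submodule.span_union, sup_assoc, ← hstep (k + n)]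
      exact ih
  have hspan : ∀ k : ℤ, L k = Submodule.span O (Set.range fun j : Fin m => e (k + (j : ℕ))) := by
    intro k
    apply le_antisymm
    · have hfg : (L k).FG := (hC.lat k).fg
      have hI : Ideal.span {ϖ} ≤ Ideal.jacobson (⊥ : Ideal O) := by
        rw [IsLocalRing.jacobson_eq_maximalIdeal ⊥ bot_ne_top, Ideal.span_singleton_le_iff_mem]
        exact hϖ.not_isUnit
      refine Submodule.le_of_le_smul_of_le_jacobson_bot hfg hI ?_
      have h1 := (hchain k m).le
      refine h1.trans (sup_le_sup le_rfl ?_)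
      rw [hC.per k]
      rintro x hx
      obtain ⟨y, hy, rfl⟩ := hx
      have h2 : (DistribSMul.toLinearMap O V p) y = ϖ • y := by
        rw [← algebraMap_smul K ϖ y, hϖp]
        rfl
      have h3 : ϖ • y ∈ Ideal.span {ϖ} • L k :=
        Submodule.smul_mem_smul (Ideal.mem_span_singleton_self ϖ) hy
      rw [← h2] at h3
      exact h3
    · rw [Submodule.span_le]
      rintro x ⟨j, rfl⟩
      exact hmem j k (hA.mem _)
  -- the basis
  have htop : ⊤ ≤ Submodule.span K (Set.range fun j : Fin m => e (j : ℕ)) := by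
    have h1 : Submodule.span K ((L 0 : Submodule O V) : Set V) = ⊤ := (hC.lat 0).span_eq_top
    rw [← h1, Submodule.span_le]
    intro x hx
    have h2 := hspan 0
    have hx' : x ∈ Submodule.span O (Set.range fun j : Fin m => e (j : ℕ)) := by
      have h4 : (Set.range fun j : Fin m => e (0 + (j : ℕ))) =
          (Set.range fun j : Fin m => e (j : ℕ)) := by
        congr 1
        funext j
        rw [zero_add]
      rw [h4] at h2
      rw [← h2]
      exact hx
    exact Submodule.span_le_restrictScalars O K _ hx'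
  let b : Basis (Fin m) K V := basisOfTopLeSpanOfCardEqFinrank (fun j : Fin m => e (j : ℕ)) htop
    (by rw [Fintype.card_fin, hdim])
  have hb : ∀ i : Fin m, b i = e i := fun i => by
    simp [b]
  have hper : ∀ (q : ℕ) (k : ℤ), e (k + q * m) = p ^ q • e k := by
    intro q
    induction q with
    | zero => intro k; simp
    | succ q ih =>
      intro k
      have h1 : k + ((q + 1 : ℕ) : ℤ) * m = (k + q * m) + m := by push_cast; ring
      rw [h1, hA.per, ih, smul_smul, pow_succ']
  have hper' : ∀ (q k : ℤ), e (k + q * m) = p ^ q • e k := by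
    intro q k
    rcases le_total 0 q with h | h
    · obtain ⟨n, rfl⟩ := Int.eq_ofNat_of_zero_le h
      rw [zpow_natCast]
      exact hper n k
    · obtain ⟨n, hn⟩ := Int.exists_eq_neg_ofNat h
      subst hn
      have h1 := hper n (k + -(n : ℤ) * m)
      have h2 : k + -(n : ℤ) * m + n * m = k := by ring
      rw [h2] at h1
      rw [h1, zpow_neg, zpow_natCast, inv_smul_smul]
  refine ⟨b, hb, fun k => ?_⟩
  rw [hspan k]
  unfold Lam
  congr 1
  have hm0 : (0 : ℤ) < m := by exact_mod_cast hm
  have hval : ∀ i : Fin m, p ^ cexp m k i • b i = e (k + (((i : ℕ) : ℤ) - k) % m) := by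
    intro i
    rw [hb, ← hper']
    congr 1
    unfold cexp
    have := Int.emod_add_mul_ediv (((i : ℕ) : ℤ) - k) m
    linarith [mul_comm (m : ℤ) ((((i : ℕ) : ℤ) - k) / m)]
  ext x
  simp only [Set.mem_range]
  constructor
  · rintro ⟨j, rfl⟩
    have hj0 : (0 : ℤ) ≤ (k + (j : ℕ)) % m := Int.emod_nonneg _ hm0.ne'
    have hj1 : (k + (j : ℕ)) % m < (m : ℤ) := Int.emod_lt_of_pos _ hm0
    obtain ⟨n, hn⟩ := Int.eq_ofNat_of_zero_le hj0
    have hn1 : n < m := by
      rw [hn] at hj1
      exact_mod_cast hj1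
    refine ⟨⟨n, hn1⟩, ?_⟩
    rw [hval]
    congr 2
    show (((n : ℕ) : ℤ) - k) % m = _
    rw [← hn, Int.emod_sub_emod]
    have h5 : k + ((j : ℕ) : ℤ) - k = (j : ℕ) := by ring
    rw [h5]
    exact Int.emod_eq_of_lt (by positivity) (by exact_mod_cast j.2)
  · rintro ⟨i, rfl⟩
    have hj0 : (0 : ℤ) ≤ (((i : ℕ) : ℤ) - k) % m := Int.emod_nonneg _ hm0.ne'
    have hj1 : (((i : ℕ) : ℤ) - k) % m < (m : ℤ) := Int.emod_lt_of_pos _ hm0
    obtain ⟨n, hn⟩ := Int.eq_ofNat_of_zero_le hj0
    have hn1 : n < m := by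
      rw [hn] at hj1
      exact_mod_cast hj1
    refine ⟨⟨n, hn1⟩, ?_⟩
    rw [hval, hn]

end Pool.Agent.H40R2.EB
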